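import Pool.Agent.Helper85.LR.L5

set_option autoImplicit false

/-!
Link lemma: the numerical form.
-/

namespace LR

open Finset hiding dens
open KF KB

/-- The numerical form of a certificate. -/
theorem linkL {T : Cert} {τ QL QH : ℝ} (hT : T.Good τ QL QH) (hB : 0 < T.B) (hS : 0 < T.SC)
    {AL : List (Fin 6 → Fin 6)} (hA : AL ≠ []) (hA1 : ∀ b ∈ AL, Function.Injective b)
    (hA2 : ∀ b ∈ AL, ∀ i j k, D6 (b i) (b j) (b k) = D6 i j k) (hA3 : ∀ b ∈ AL, b 0 = 0)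
    (hc : ∀ (V : Type) (_ : Fintype V) (E : V → V → V → Bool) (κ : V → Fin 6) (v : V)
      (φ : Fin 4 → V), K4m E → 0 ≤ (AL.map fun b =>
      ∑ p : Equiv.Perm (Fin 4), T.h (cm4 E (fun x => b (κ x)) v (fun s => φ (p s)))).sum) :
    LinkL τ ((T.A : ℝ) / T.B) ((T.VN : ℝ) / T.SC) ((T.VQ : ℝ) / T.SC) ((T.CPi : ℝ) / T.SC)
      ((T.CPo : ℝ) / T.SC) (QL / T.SC) (QH / T.SC) := by
  intro V iV E w κ hE hw ht v hm
  have hB' : (0 : ℝ) < T.B := by exact_mod_cast hB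
  have hS' : (0 : ℝ) < T.SC := by exact_mod_cast hS
  obtain ⟨i, Qb, g1, g2, -, g3⟩ := link_all E κ v hE hw.nn hw.one T hT ht
    (fun i => by
      have := hm i
      rw [div_le_iff₀ hB'] at this
      linarith) hA hA1 hA2 hA3 (fun κ' φ => hc V iV E κ' v φ hE)
  refine ⟨i, Qb / T.SC, div_le_div_of_nonneg_right g1 hS'.le,
    div_le_div_of_nonneg_right g2 hS'.le, ?_⟩
  have e : (T.VN : ℝ) / T.SC + T.VQ / T.SC * xs w κ i ^ 2 + T.CPi / T.SC * (3 * mi E w κ i) +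
      T.CPo / T.SC * (mu E w κ - 3 * mi E w κ i) +
        Qb / T.SC * (7 * ins E κ v w i - 2 * xs w κ i ^ 2) =
      (T.VN + T.VQ * xs w κ i ^ 2 + T.CPi * (3 * mui E κ w i) +
        T.CPo * (mu E w κ - 3 * mui E κ w i) +
        Qb * (7 * ins E κ v w i - 2 * xs w κ i ^ 2)) / T.SC := by
    have e2 : mui E κ w i = mi E w κ i := rfl
    rw [e2]
    ring
  rw [e, le_div_iff₀ hS']
  linarith

end LR
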