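import Pool.Agent.Helper85.KB.B4

set_option autoImplicit false

/-!
The link lemma with numerical parameters.
-/

namespace LR

open Finset hiding dens
open KF KB

section
variable {V : Type} [Fintype V] (E : V → V → V → Bool) (κ : V → Fin 6) (v : V)

/-- Missing pairs at `v` with respect to the class `j`. -/
noncomputable def mj (w : V → ℝ) (j : Fin 6) : ℝ :=
  ∑ y, ∑ z, w y * w z * (b2r (D6 j (κ y) (κ z)) * (1 - b2r (E v y z)))
/-- Pairs of the link of `v` in the ideal link of the class `j`. -/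
noncomputable def ph (w : V → ℝ) (j : Fin 6) : ℝ :=
  ∑ y, ∑ z, w y * w z * (b2r (D6 j (κ y) (κ z)) * b2r (E v y z))
/-- Pairs of the link of `v` inside the class `j`. -/
noncomputable def ins (w : V → ℝ) (j : Fin 6) : ℝ :=
  ∑ y, ∑ z, w y * w z * (b2r (decide (κ y = j)) * b2r (decide (κ z = j)) * b2r (E v y z))

end

/-- The link lemma: sizes within `τ`; a vertex with at least `m` missing pairs with respect to
every class has a class `i` with the stated bound for its degree. -/
def LinkL (τ m a q ci co QL QH : ℝ) : Prop :=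
  ∀ (V : Type) (_ : Fintype V) (E : V → V → V → Bool) (w : V → ℝ) (κ : V → Fin 6), K4m E →
    Wt w → ∑ j, (xs w κ j - 1 / 6) ^ 2 ≤ τ ^ 2 → ∀ v, (∀ i, m ≤ mj E κ v w i) →
    ∃ i Qb, QL ≤ Qb ∧ Qb ≤ QH ∧ 36 * (deg E w v - PP w κ i) ≤
      a + q * xs w κ i ^ 2 + ci * (3 * mi E w κ i) + co * (mu E w κ - 3 * mi E w κ i) +
        Qb * (7 * ins E κ v w i - 2 * xs w κ i ^ 2)

end LR
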