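import Pool.Agent.Helper85.LR.L2
import Pool.Agent.Helper20.KT.X3

set_option autoImplicit false

/-!
Link lemma: from a certificate to the inequality for the degree of a vertex.
-/

namespace LR

open Finset hiding dens
open KF KB
open KR (tn_lt msi bdi Ev_le_pos Ev_nn_pos)

/-- The bit of a code of a coloured pair. -/
def eb (r : ℕ) : ℕ := r % 2
/-- The colour 0 occurs. -/
def zc (t : ℕ) : Bool := t / 8 % 8 == 0 || t / 64 % 8 == 0 || t / 512 == 0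
/-- Block triples through the class 0 with at least two pairs. -/
def mtI (t : ℕ) : ℕ := if zc t then mt t else 0
/-- Block triples avoiding the class 0 with at least two pairs. -/
def mtO (t : ℕ) : ℕ := if zc t then 0 else mt t

/-- A certificate. -/
structure Cert where
  S0 : ℕ → ℕ → ℤ
  S2 : ℕ → ℕ → ℕ → ℤ
  Mm : ℕ → ℤ
  Oo : ℕ → ℕ → ℤ
  Qz : ℕ → ℤ
  Ii : ℕ → ℕ → ℤ
  NI : ℕ → ℤ
  A : ℤ
  B : ℤ
  VN : ℤ
  VQ : ℤ
  CPi : ℤ
  CPo : ℤ
  SC : ℤ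

namespace Cert

variable (T : Cert)

/-- The integrand. -/
def h (N : ℕ) : ℤ :=
  T.VN + T.VQ * (i0 0 (rt N) : ℤ) + T.CPi * (mtI (t3 N) : ℤ) + T.CPo * (mtO (t3 N) : ℤ) -
    36 * T.SC * ((eb (rt N) : ℤ) - (d0 0 (rt N) : ℤ)) - T.S0 (rt N) (fB N) -
    T.S2 (rt N) (fA2 N) (fB2 N) - T.Mm (rt N) * (T.B * (m0 (fB N) : ℤ) - T.A) -
    (∑ j : Fin 6, T.Oo (rt N) j *
      ((eb (fB N) : ℤ) * ((d0 0 (fB N) : ℤ) - (d0 j (fB N) : ℤ)))) -
    T.Qz (rt N) * ((i0 0 (fB N) : ℤ) * (2 - 7 * (eb (fB N) : ℤ))) -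
    (T.Ii (t3 N) (c3 N) + T.NI (t3 N))

/-- Validity of a certificate. -/
structure Good (τ QL QH : ℝ) : Prop where
  s0 : Psd 128 (fun a b => (T.S0 a b : ℝ))
  s2 : ∀ r, Psd 32 (fun a b => (T.S2 r a b : ℝ))
  m : ∀ r, 0 ≤ T.Mm r
  o : ∀ r, ∀ j : Fin 6, 0 ≤ T.Oo r j
  ql : ∀ r, QL ≤ (T.Qz r : ℝ)
  qh : ∀ r, (T.Qz r : ℝ) ≤ QH
  i0 : ∀ r, ∑ j : Fin 6, T.Ii r j = 0
  i : ∀ r, (∑ j : Fin 6, (T.Ii r j : ℝ) ^ 2) * τ ^ 2 ≤ (T.NI r : ℝ) ^ 2
  ni : ∀ r, 0 ≤ T.NI r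
  ci : 0 ≤ T.CPi
  co : 0 ≤ T.CPo

end Cert

theorem cnt0 : ∀ i j k : Fin 6, D6 i j k = true →
    (if i = 0 then 1 else 0) + (if j = 0 then 1 else 0) + (if k = 0 then 1 else 0) =
      (if (i == 0 || j == 0 || k == 0) = true then 1 else (0 : ℕ)) := by decide

section
variable {V : Type} (E : V → V → V → Bool) (κ : V → Fin 6) (v : V)

theorem zc_G3 (x y z : V) : zc (G3 E κ v x y z) = (κ x == 0 || κ y == 0 || κ z == 0) := by
  obtain ⟨h1, h2, h3, -, -, -⟩ := G3_dec E κ v x y z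
  unfold zc
  rw [h1, h2, h3]
  have e : ∀ i : Fin 6, ((i : ℕ) == 0) = (i == 0) := by decide
  rw [e, e, e]

theorem ic_ite (x : V) : ic κ 0 x = if κ x = 0 then 1 else 0 := by
  unfold ic b2r
  simp

theorem mtI_le (hE : K4m E) (x y z : V) : ((mtI (G3 E κ v x y z) : ℕ) : ℝ) ≤
    (ic κ 0 x + ic κ 0 y + ic κ 0 z) * msi E κ x y z := by
  have h := mt_le E κ v hE x y z
  cases hd : D6 (κ x) (κ y) (κ z)
  · have h0 : msi E κ x y z = 0 := by unfold msi; rw [hd]; simp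
    rw [h0] at h ⊢
    unfold mtI
    split
    · simpa using h
    · simp
  · have hc := cnt0 _ _ _ hd
    have hc' : ic κ 0 x + ic κ 0 y + ic κ 0 z =
        if (κ x == 0 || κ y == 0 || κ z == 0) = true then 1 else 0 := by
      rw [ic_ite, ic_ite, ic_ite]
      exact_mod_cast hc
    rw [hc']
    unfold mtI
    rw [zc_G3]
    split
    · rw [one_mul]; exact h
    · simp

theorem mtO_le (hE : K4m E) (x y z : V) : ((mtO (G3 E κ v x y z) : ℕ) : ℝ) ≤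
    msi E κ x y z - (ic κ 0 x + ic κ 0 y + ic κ 0 z) * msi E κ x y z := by
  have h := mt_le E κ v hE x y z
  cases hd : D6 (κ x) (κ y) (κ z)
  · have h0 : msi E κ x y z = 0 := by unfold msi; rw [hd]; simp
    rw [h0] at h ⊢
    unfold mtO
    split
    · simp
    · simpa using h
  · have hc := cnt0 _ _ _ hd
    have hc' : ic κ 0 x + ic κ 0 y + ic κ 0 z =
        if (κ x == 0 || κ y == 0 || κ z == 0) = true then 1 else 0 := by
      rw [ic_ite, ic_ite, ic_ite]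
      exact_mod_cast hc
    rw [hc']
    unfold mtO
    rw [zc_G3]
    split
    · simp
    · rw [zero_mul, sub_zero]; exact h

end

section
variable {V : Type} [Fintype V] (E : V → V → V → Bool) (κ : V → Fin 6) (v : V) {w : V → ℝ}

/-- Missing triples with their first vertex in the class `j`. -/
noncomputable def mui (w : V → ℝ) (j : Fin 6) : ℝ := ∑ x, w x * ic κ j x * mm E w κ x

theorem msi_12 (hE : K4m E) (x y z : V) : msi E κ x y z = msi E κ y x z := by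
  unfold msi
  rw [D6_K4m.s12, hE.s12]

theorem msi_23 (hE : K4m E) (x y z : V) : msi E κ x y z = msi E κ x z y := by
  unfold msi
  rw [D6_K4m.s23, hE.s23]

theorem sum_mui (hE : K4m E) :
    Ev 3 w (fun ρ => (ic κ 0 (ρ 0) + ic κ 0 (ρ 1) + ic κ 0 (ρ 2)) * msi E κ (ρ 0) (ρ 1) (ρ 2)) =
      3 * mui E κ w 0 := by
  rw [Ev_three w (fun x y z => (ic κ 0 x + ic κ 0 y + ic κ 0 z) * msi E κ x y z),
    ← KT.mark3 (w := w) (fun x y z => msi E κ x y z) (msi_12 E κ hE) (msi_23 E κ hE) (ic κ 0)]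
  congr 1
  unfold mui mm msi
  refine sum_congr rfl fun x _ => ?_
  rw [mul_sum]
  refine sum_congr rfl fun y _ => ?_
  rw [mul_sum]
  exact sum_congr rfl fun z _ => by ring

theorem ev_mtI (hE : K4m E) (hw : ∀ v, 0 ≤ w v) (h1 : ∑ v, w v = 1) :
    Ev 4 w (fun φ => ((mtI (t3 (cm4 E κ v φ)) : ℕ) : ℝ)) ≤ 3 * mui E κ w 0 := by
  rw [ev3 E κ v h1 (fun r => ((mtI r : ℕ) : ℝ)), ← sum_mui E κ hE]
  exact Ev_mono 3 w hw fun ρ => mtI_le E κ v hE _ _ _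

theorem ev_mtO (hE : K4m E) (hw : ∀ v, 0 ≤ w v) (h1 : ∑ v, w v = 1) :
    Ev 4 w (fun φ => ((mtO (t3 (cm4 E κ v φ)) : ℕ) : ℝ)) ≤ mu E w κ - 3 * mui E κ w 0 := by
  rw [ev3 E κ v h1 (fun r => ((mtO r : ℕ) : ℝ)), ← sum_mui E κ hE, KR.mu_Ev, ← Ev_sub]
  exact Ev_mono 3 w hw fun ρ => mtO_le E κ v hE _ _ _

theorem sum_ww (h1 : ∑ v, w v = 1) (c : ℝ) : ∑ y, ∑ z, w y * w z * c = c := by
  have h : ∀ y, ∑ z, w y * w z * c = w y * c := fun y => by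
    rw [← sum_mul, ← mul_sum, h1, mul_one]
  simp only [h]
  rw [← sum_mul, h1, one_mul]

theorem mod2 (x y : V) : ((eb (G2 E κ v x y) : ℕ) : ℝ) = b2r (E v x y) := by
  unfold eb
  rw [(G2_dec E κ v x y).2.2]
  cases E v x y <;> simp [b2r]

/-- The sum of the row for the missing degree. -/
theorem sum_m0 (h1 : ∑ v, w v = 1) (A B : ℝ) :
    ∑ y, ∑ z, w y * w z * (B * ((m0 (G2 E κ v y z) : ℕ) : ℝ) - A) = B * mj E κ v w 0 - A := by
  have h : ∀ y z, w y * w z * (B * ((m0 (G2 E κ v y z) : ℕ) : ℝ) - A) =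
      B * (w y * w z * (b2r (D6 0 (κ y) (κ z)) * (1 - b2r (E v y z)))) - w y * w z * A := by
    intro y z
    rw [m0_G2]
    ring
  simp only [h, sum_sub_distrib, ← mul_sum]
  rw [sum_ww h1 A]
  rfl

theorem sum_o0 (j : Fin 6) :
    ∑ y, ∑ z, w y * w z * (((eb (G2 E κ v y z) : ℕ) : ℝ) * (((d0 0 (G2 E κ v y z) : ℕ) : ℝ) -
      ((d0 j (G2 E κ v y z) : ℕ) : ℝ))) = ph E κ v w 0 - ph E κ v w j := by
  unfold ph
  rw [← sum_sub_distrib]
  refine sum_congr rfl fun y _ => ?_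
  rw [← sum_sub_distrib]
  refine sum_congr rfl fun z _ => ?_
  have e0 := d0_G2 E κ v 0 y z
  rw [mod2, d0_G2]
  change _ * (_ * ((((d0 ((0 : Fin 6) : ℕ) (G2 E κ v y z)) : ℕ) : ℝ) - _)) = _
  rw [e0]
  ring

theorem sum_q0 : ∑ y, ∑ z, w y * w z * (((i0 0 (G2 E κ v y z) : ℕ) : ℝ) *
      (2 - 7 * ((eb (G2 E κ v y z) : ℕ) : ℝ))) = 2 * xs w κ 0 ^ 2 - 7 * ins E κ v w 0 := by
  have h : ∀ y z, w y * w z * (((i0 0 (G2 E κ v y z) : ℕ) : ℝ) *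
      (2 - 7 * ((eb (G2 E κ v y z) : ℕ) : ℝ))) = 2 * ((w y * ic κ 0 y) * (w z * ic κ 0 z)) -
      7 * (w y * w z * (b2r (decide (κ y = 0)) * b2r (decide (κ z = 0)) * b2r (E v y z))) := by
    intro y z
    have e0 := i0_G2 E κ v 0 y z
    rw [mod2]
    change _ * ((((i0 ((0 : Fin 6) : ℕ) (G2 E κ v y z)) : ℕ) : ℝ) * _) = _
    rw [e0]
    unfold ic
    ring
  simp only [h, sum_sub_distrib, ← mul_sum]
  rw [sq, ← sum_mul]
  rfl

theorem sum_i0 : ∑ y, ∑ z, w y * w z * ((i0 0 (G2 E κ v y z) : ℕ) : ℝ) = xs w κ 0 ^ 2 := by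
  have h : ∀ y z, w y * w z * ((i0 0 (G2 E κ v y z) : ℕ) : ℝ) =
      (w y * ic κ 0 y) * (w z * ic κ 0 z) := by
    intro y z
    have e0 := i0_G2 E κ v 0 y z
    change _ * ((((i0 ((0 : Fin 6) : ℕ) (G2 E κ v y z)) : ℕ) : ℝ)) = _
    rw [e0]
    unfold ic
    ring
  simp only [h, ← mul_sum]
  rw [sq, ← sum_mul]
  rfl

theorem sum_obj : ∑ y, ∑ z, w y * w z * (((eb (G2 E κ v y z) : ℕ) : ℝ) -
      ((d0 0 (G2 E κ v y z) : ℕ) : ℝ)) = deg E w v - PP w κ 0 := by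
  have h2 := fib2 (w := w) (κ := κ) (fun a b => b2r (D6 0 a b))
  unfold PP deg
  rw [← h2, ← sum_sub_distrib]
  refine sum_congr rfl fun y _ => ?_
  rw [← sum_sub_distrib]
  refine sum_congr rfl fun z _ => ?_
  have e0 := d0_G2 E κ v 0 y z
  rw [mod2]
  change _ * (_ - (((d0 ((0 : Fin 6) : ℕ) (G2 E κ v y z)) : ℕ) : ℝ)) = _
  rw [e0]
  ring

end

end LR
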