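import Pool.Agent.Helper85.KL.R4

set_option autoImplicit false

/-!
Link lemma: coloured samples of four vertices in the link of a vertex as natural numbers.
-/

namespace LR

open Finset hiding dens
open KF KB
open KR (tn_lt msi bdi Ev_le_pos Ev_nn_pos)

/-- Assemble six bits and four colours. -/
def pk4 (a b c d e f : ℕ) (c0 c1 c2 c3 : ℕ) : ℕ :=
  a + 2 * b + 4 * c + 8 * d + 16 * e + 32 * f + 64 * c0 + 512 * c1 + 4096 * c2 + 32768 * c3

/-- Code of the first two vertices. -/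
def rt (N : ℕ) : ℕ := N / 64 % 64 * 2 + N % 2
/-- Code of the last two vertices. -/
def fB (N : ℕ) : ℕ := N / 4096 % 64 * 2 + N / 32 % 2
/-- Flag of the vertex 2 over the first two. -/
def fA2 (N : ℕ) : ℕ := N / 4096 % 8 * 4 + N / 2 % 4
/-- Flag of the vertex 3 over the first two. -/
def fB2 (N : ℕ) : ℕ := N / 32768 % 8 * 4 + N / 8 % 4
/-- Code of the first three vertices. -/
def t3 (N : ℕ) : ℕ := N / 64 % 512 * 8 + N % 8
/-- Colour of the vertex 3. -/
def c3 (N : ℕ) : ℕ := N / 32768 % 8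

section
variable {a b c d e f k0 k1 k2 k3 : ℕ}
  (h0 : a < 2) (h1 : b < 2) (h2 : c < 2) (h3 : d < 2) (h4 : e < 2) (h5 : f < 2)
  (g0 : k0 < 6) (g1 : k1 < 6) (g2 : k2 < 6) (g3 : k3 < 6)
include h0 h1 h2 h3 h4 h5 g0 g1 g2 g3

theorem rt_pk : rt (pk4 a b c d e f k0 k1 k2 k3) = (k0 + 8 * k1) * 2 + a := by
  unfold rt pk4; omega
theorem fB_pk : fB (pk4 a b c d e f k0 k1 k2 k3) = (k2 + 8 * k3) * 2 + f := by
  unfold fB pk4; omega
theorem fA2_pk : fA2 (pk4 a b c d e f k0 k1 k2 k3) = k2 * 4 + (b + 2 * c) := by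
  unfold fA2 pk4; omega
theorem fB2_pk : fB2 (pk4 a b c d e f k0 k1 k2 k3) = k3 * 4 + (d + 2 * e) := by
  unfold fB2 pk4; omega
theorem t3_pk : t3 (pk4 a b c d e f k0 k1 k2 k3) =
    (k0 + 8 * k1 + 64 * k2) * 8 + (a + 2 * b + 4 * c) := by
  unfold t3 pk4; omega
theorem c3_pk : c3 (pk4 a b c d e f k0 k1 k2 k3) = k3 := by
  unfold c3 pk4; omega
end

section
variable {V : Type} (E : V → V → V → Bool) (κ : V → Fin 6) (v : V)

/-- The number of a coloured sample in the link of `v`. -/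
def cm4 (φ : Fin 4 → V) : ℕ :=
  pk4 (E v (φ 0) (φ 1)).toNat (E v (φ 0) (φ 2)).toNat (E v (φ 1) (φ 2)).toNat
    (E v (φ 0) (φ 3)).toNat (E v (φ 1) (φ 3)).toNat (E v (φ 2) (φ 3)).toNat
    (κ (φ 0)) (κ (φ 1)) (κ (φ 2)) (κ (φ 3))

/-- Code of a coloured pair. -/
def G2 (x y : V) : ℕ := ((κ x : ℕ) + 8 * (κ y : ℕ)) * 2 + (E v x y).toNat
/-- Flag of a vertex over two roots. -/
def Gf (x y z : V) : ℕ := (κ z : ℕ) * 4 + ((E v x z).toNat + 2 * (E v y z).toNat)
/-- Code of a coloured triple. -/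
def G3 (x y z : V) : ℕ := ((κ x : ℕ) + 8 * (κ y : ℕ) + 64 * (κ z : ℕ)) * 8 +
  ((E v x y).toNat + 2 * (E v x z).toNat + 4 * (E v y z).toNat)

theorem G2_lt (x y : V) : G2 E κ v x y < 128 := by
  unfold G2
  have h1 := tn_lt (E v x y)
  have h2 := (κ x).2
  have h3 := (κ y).2
  omega

theorem Gf_lt (x y z : V) : Gf E κ v x y z < 32 := by
  unfold Gf
  have h1 := tn_lt (E v x z)
  have h2 := tn_lt (E v y z)
  have h3 := (κ z).2
  omega

theorem G2_dec (x y : V) : G2 E κ v x y / 2 % 8 = κ x ∧ G2 E κ v x y / 16 = κ y ∧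
    G2 E κ v x y % 2 = (E v x y).toNat := by
  unfold G2
  have h1 := tn_lt (E v x y)
  have h2 := (κ x).2
  have h3 := (κ y).2
  refine ⟨?_, ?_, ?_⟩ <;> omega

theorem G3_dec (x y z : V) : G3 E κ v x y z / 8 % 8 = κ x ∧ G3 E κ v x y z / 64 % 8 = κ y ∧
    G3 E κ v x y z / 512 = κ z ∧ G3 E κ v x y z % 2 = (E v x y).toNat ∧
    G3 E κ v x y z / 2 % 2 = (E v x z).toNat ∧ G3 E κ v x y z / 4 % 2 = (E v y z).toNat := by
  unfold G3
  have h1 := tn_lt (E v x y)
  have h2 := tn_lt (E v x z)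
  have h3 := tn_lt (E v y z)
  have g1 := (κ x).2
  have g2 := (κ y).2
  have g3 := (κ z).2
  refine ⟨?_, ?_, ?_, ?_, ?_, ?_⟩ <;> omega

variable (φ : Fin 4 → V)

theorem cm_rt : rt (cm4 E κ v φ) = G2 E κ v (φ 0) (φ 1) :=
  rt_pk (tn_lt _) (tn_lt _) (tn_lt _) (tn_lt _) (tn_lt _) (tn_lt _) (κ _).2 (κ _).2 (κ _).2 (κ _).2
theorem cm_fB : fB (cm4 E κ v φ) = G2 E κ v (φ 2) (φ 3) :=
  fB_pk (tn_lt _) (tn_lt _) (tn_lt _) (tn_lt _) (tn_lt _) (tn_lt _) (κ _).2 (κ _).2 (κ _).2 (κ _).2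
theorem cm_fA2 : fA2 (cm4 E κ v φ) = Gf E κ v (φ 0) (φ 1) (φ 2) :=
  fA2_pk (tn_lt _) (tn_lt _) (tn_lt _) (tn_lt _) (tn_lt _) (tn_lt _) (κ _).2 (κ _).2 (κ _).2 (κ _).2
theorem cm_fB2 : fB2 (cm4 E κ v φ) = Gf E κ v (φ 0) (φ 1) (φ 3) :=
  fB2_pk (tn_lt _) (tn_lt _) (tn_lt _) (tn_lt _) (tn_lt _) (tn_lt _) (κ _).2 (κ _).2 (κ _).2 (κ _).2
theorem cm_t3 : t3 (cm4 E κ v φ) = G3 E κ v (φ 0) (φ 1) (φ 2) :=
  t3_pk (tn_lt _) (tn_lt _) (tn_lt _) (tn_lt _) (tn_lt _) (tn_lt _) (κ _).2 (κ _).2 (κ _).2 (κ _).2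
theorem cm_c3 : c3 (cm4 E κ v φ) = (κ (φ 3) : ℕ) :=
  c3_pk (tn_lt _) (tn_lt _) (tn_lt _) (tn_lt _) (tn_lt _) (tn_lt _) (κ _).2 (κ _).2 (κ _).2 (κ _).2

end

/-- The missing pair indicator at the class 0 of a code of a coloured pair. -/
def m0 (r : ℕ) : ℕ := if KR.dn 0 (r / 2 % 8) (r / 16) && r % 2 == 0 then 1 else 0
/-- The block indicator of the class `j` of a code of a coloured pair. -/
def d0 (j r : ℕ) : ℕ := if KR.dn j (r / 2 % 8) (r / 16) then 1 else 0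
/-- Both colours equal to `j`. -/
def i0 (j r : ℕ) : ℕ := if r / 2 % 8 == j && r / 16 == j then 1 else 0
/-- Block triples with at least two pairs. -/
def mt (t : ℕ) : ℕ :=
  if KR.dn (t / 8 % 8) (t / 64 % 8) (t / 512) && decide (2 ≤ t % 2 + t / 2 % 2 + t / 4 % 2)
  then 1 else 0

section
variable {V : Type} (E : V → V → V → Bool) (κ : V → Fin 6) (v : V)

theorem m0_G2 (x y : V) : ((m0 (G2 E κ v x y) : ℕ) : ℝ) =
    b2r (D6 0 (κ x) (κ y)) * (1 - b2r (E v x y)) := by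
  obtain ⟨h1, h2, h3⟩ := G2_dec E κ v x y
  unfold m0
  have := KR.dn_D6 0 (κ x) (κ y)
  rw [h1, h2, h3]
  change (((if (KR.dn ((0 : Fin 6) : ℕ) _ _ && _) then 1 else 0 : ℕ)) : ℝ) = _
  rw [this]
  cases D6 0 (κ x) (κ y) <;> cases E v x y <;> simp [b2r]

theorem d0_G2 (j : Fin 6) (x y : V) : ((d0 j (G2 E κ v x y) : ℕ) : ℝ) =
    b2r (D6 j (κ x) (κ y)) := by
  obtain ⟨h1, h2, h3⟩ := G2_dec E κ v x y
  unfold d0
  rw [h1, h2, KR.dn_D6]
  cases D6 j (κ x) (κ y) <;> simp [b2r]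

theorem i0_G2 (j : Fin 6) (x y : V) : ((i0 j (G2 E κ v x y) : ℕ) : ℝ) =
    b2r (decide (κ x = j)) * b2r (decide (κ y = j)) := by
  obtain ⟨h1, h2, h3⟩ := G2_dec E κ v x y
  unfold i0
  rw [h1, h2]
  have e1 : ((κ x : ℕ) == (j : ℕ)) = decide (κ x = j) := by
    rw [Bool.eq_iff_iff, beq_iff_eq, decide_eq_true_eq, Fin.ext_iff]
  have e2 : ((κ y : ℕ) == (j : ℕ)) = decide (κ y = j) := by
    rw [Bool.eq_iff_iff, beq_iff_eq, decide_eq_true_eq, Fin.ext_iff]
  rw [e1, e2]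
  cases decide (κ x = j) <;> cases decide (κ y = j) <;> simp [b2r]

/-- A block triple with two pairs in a link is missing. -/
theorem mt_le (hE : K4m E) (x y z : V) : ((mt (G3 E κ v x y z) : ℕ) : ℝ) ≤
    msi E κ x y z := by
  obtain ⟨h1, h2, h3, h4, h5, h6⟩ := G3_dec E κ v x y z
  unfold mt msi
  rw [h1, h2, h3, h4, h5, h6, KR.dn_D6]
  have f1 : E v x y = true → E v x z = true → E x y z = true → False := by
    intro a b c
    have a' : E x v y = true := by rw [hE.s12]; exact a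
    have b' : E x v z = true := by rw [hE.s12]; exact b
    exact hE.free x v y z a' b' c
  have f2 : E v x y = true → E v y z = true → E x y z = true → False := by
    intro a b c
    have a' : E y v x = true := by rw [hE.s12, hE.s23]; exact a
    have b' : E y v z = true := by rw [hE.s12]; exact b
    have c' : E y x z = true := by rw [hE.s12]; exact c
    exact hE.free y v x z a' b' c'
  have f3 : E v x z = true → E v y z = true → E x y z = true → False := by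
    intro a b c
    have a' : E z v x = true := by rw [hE.s12, hE.s23]; exact a
    have b' : E z v y = true := by rw [hE.s12, hE.s23]; exact b
    have c' : E z x y = true := by rw [hE.s12, hE.s23]; exact c
    exact hE.free z v x y a' b' c'
  cases hd : D6 (κ x) (κ y) (κ z)
  · simp [b2r]
  · cases hc : E x y z
    · simp [b2r]
      split <;> norm_num
    · cases ha : E v x y
      · cases hb : E v x z
        · cases hg : E v y z <;> simp
        · cases hg : E v y z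
          · simp
          · exact (f3 hb hg hc).elim
      · cases hb : E v x z
        · cases hg : E v y z
          · simp
          · exact (f2 ha hg hc).elim
        · exact (f1 ha hb hc).elim

end

end LR
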