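import Pool.Agent.Helper85.LR.L1
import Pool.Agent.Helper85.LR.D

set_option autoImplicit false

/-!
Link lemma: the expectations of the rows.
-/

namespace LR

open Finset hiding dens
open KF KB
open KR (tn_lt msi bdi Ev_le_pos Ev_nn_pos)

section
variable {V : Type} [Fintype V] (E : V → V → V → Bool) (κ : V → Fin 6) (v : V) {w : V → ℝ}

/-- No roots. -/
theorem evS0 {Q : ℕ → ℕ → ℝ} (hQ : Psd 128 Q) :
    0 ≤ Ev 4 w (fun φ => Q (rt (cm4 E κ v φ)) (fB (cm4 E κ v φ))) := by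
  have h := Ev_psd 2 128 w (fun ψ => G2 E κ v (ψ 0) (ψ 1)) (fun ψ => G2_lt E κ v _ _) hQ
  refine h.trans_eq (Ev_congr 4 w fun ψ => ?_)
  rw [cm_rt, cm_fB]
  rfl

/-- Two roots. -/
theorem evS2 (hw : ∀ v, 0 ≤ w v) {Q : ℕ → ℕ → ℕ → ℝ} (hQ : ∀ r, Psd 32 (Q r)) :
    0 ≤ Ev 4 w (fun φ => Q (rt (cm4 E κ v φ)) (fA2 (cm4 E κ v φ)) (fB2 (cm4 E κ v φ))) := by
  rw [Ev_append 2 2 w]
  refine Ev_nonneg 2 w hw fun ρ => ?_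
  have h := Ev_psd 1 32 w (fun ψ => Gf E κ v (ρ 0) (ρ 1) (ψ 0)) (fun ψ => Gf_lt E κ v _ _ _)
    (hQ (G2 E κ v (ρ 0) (ρ 1)))
  refine h.trans_eq (Ev_congr 2 w fun ψ => ?_)
  rw [cm_rt, cm_fA2, cm_fB2]
  rfl

/-- Product of a function of the first pair and a function of the second pair. -/
theorem evP (F G : ℕ → ℝ) :
    Ev 4 w (fun φ => F (rt (cm4 E κ v φ)) * G (fB (cm4 E κ v φ))) =
      Ev 2 w (fun ρ => F (G2 E κ v (ρ 0) (ρ 1))) *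
        ∑ y, ∑ z, w y * w z * G (G2 E κ v y z) := by
  rw [Ev_append 2 2 w, mul_comm, ← Ev_mul]
  refine Ev_congr 2 w fun ρ => ?_
  have h3 : ∀ ψ : Fin 2 → V, F (rt (cm4 E κ v (Fin.append ρ ψ))) *
      G (fB (cm4 E κ v (Fin.append ρ ψ))) =
      F (G2 E κ v (ρ 0) (ρ 1)) * G (G2 E κ v (ψ 0) (ψ 1)) := by
    intro ψ
    rw [cm_rt, cm_fB]
    rfl
  rw [Ev_congr 2 w h3, Ev_mul, Ev_two w (fun x y => G (G2 E κ v x y)), mul_comm]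

/-- Colours of a further vertex. -/
theorem evI (h1 : ∑ v, w v = 1) (K : ℕ → ℕ → ℝ)
    (h0 : ∀ r, ∑ j : Fin 6, K r j = 0) :
    Ev 4 w (fun φ => K (t3 (cm4 E κ v φ)) (c3 (cm4 E κ v φ))) =
      Ev 3 w (fun ρ => ∑ j : Fin 6, K (G3 E κ v (ρ 0) (ρ 1) (ρ 2)) j * (xs w κ j - 1 / 6)) := by
  rw [Ev_append 3 1 w]
  refine Ev_congr 3 w fun ρ => ?_
  have h2 : ∀ ψ : Fin 1 → V, K (t3 (cm4 E κ v (Fin.append ρ ψ))) (c3 (cm4 E κ v (Fin.append ρ ψ))) =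
      K (G3 E κ v (ρ 0) (ρ 1) (ρ 2)) (κ (ψ 0)) := by
    intro ψ
    rw [cm_t3, cm_c3]
    rfl
  rw [Ev_congr 1 w h2, Ev_one w (fun x => K (G3 E κ v (ρ 0) (ρ 1) (ρ 2)) (κ x)),
    fib (w := w) (κ := κ) (fun i => K (G3 E κ v (ρ 0) (ρ 1) (ρ 2)) i)]
  have h3 : ∑ j : Fin 6, K (G3 E κ v (ρ 0) (ρ 1) (ρ 2)) j * (xs w κ j - 1 / 6) =
      ∑ j : Fin 6, xs w κ j * K (G3 E κ v (ρ 0) (ρ 1) (ρ 2)) j -
        1 / 6 * ∑ j : Fin 6, K (G3 E κ v (ρ 0) (ρ 1) (ρ 2)) j := by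
    rw [mul_sum, ← sum_sub_distrib]
    exact sum_congr rfl fun j _ => by ring
  rw [h3, h0, mul_zero, sub_zero]

/-- Functions of the first three vertices. -/
theorem ev3 (h1 : ∑ v, w v = 1) (K : ℕ → ℝ) :
    Ev 4 w (fun φ => K (t3 (cm4 E κ v φ))) =
      Ev 3 w (fun ρ => K (G3 E κ v (ρ 0) (ρ 1) (ρ 2))) := by
  rw [Ev_append 3 1 w]
  refine Ev_congr 3 w fun ρ => ?_
  have h3 : ∀ ψ : Fin 1 → V, K (t3 (cm4 E κ v (Fin.append ρ ψ))) =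
      K (G3 E κ v (ρ 0) (ρ 1) (ρ 2)) := fun ψ => by
    rw [cm_t3]
    rfl
  rw [Ev_congr 1 w h3, Ev_const 1 w h1]

/-- Functions of the first two vertices. -/
theorem ev2 (h1 : ∑ v, w v = 1) (K : ℕ → ℝ) :
    Ev 4 w (fun φ => K (rt (cm4 E κ v φ))) =
      ∑ y, ∑ z, w y * w z * K (G2 E κ v y z) := by
  rw [Ev_append 2 2 w]
  have h3 : ∀ ρ : Fin 2 → V, Ev 2 w (fun ψ => K (rt (cm4 E κ v (Fin.append ρ ψ)))) =
      K (G2 E κ v (ρ 0) (ρ 1)) := fun ρ => by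
    have h4 : ∀ ψ : Fin 2 → V, K (rt (cm4 E κ v (Fin.append ρ ψ))) =
      K (G2 E κ v (ρ 0) (ρ 1)) := fun ψ => by
      rw [cm_rt]
      rfl
    rw [Ev_congr 2 w h4, Ev_const 2 w h1]
  rw [Ev_congr 2 w h3, Ev_two w (fun x y => K (G2 E κ v x y))]

/-- The missing blocks. -/
theorem ev_mt (hE : K4m E) (hw : ∀ v, 0 ≤ w v) (h1 : ∑ v, w v = 1) :
    Ev 4 w (fun φ => ((mt (t3 (cm4 E κ v φ)) : ℕ) : ℝ)) ≤ mu E w κ := by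
  rw [ev3 E κ v h1 (fun r => ((mt r : ℕ) : ℝ)), KR.mu_Ev]
  exact Ev_mono 3 w hw fun ρ => mt_le E κ v hE _ _ _

theorem ph_nn (hw : ∀ v, 0 ≤ w v) (j : Fin 6) : 0 ≤ ph E κ v w j :=
  sum_nonneg fun _ _ => sum_nonneg fun _ _ => mul_nonneg (mul_nonneg (hw _) (hw _))
    (mul_nonneg (b2r_nonneg _) (b2r_nonneg _))

end

end LR
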