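import Pool.Agent.Helper85.LR.L3

set_option autoImplicit false

/-!
Link lemma: the inequality for the class 0.
-/

namespace LR

open Finset hiding dens
open KF KB
open KR (tn_lt msi bdi Ev_le_pos Ev_nn_pos)

section
variable {V : Type} [Fintype V] (E : V → V → V → Bool) (κ : V → Fin 6) (v : V) {w : V → ℝ}

/-- The inequality for the class 0. -/
theorem one (hE : K4m E) (hw : ∀ v, 0 ≤ w v) (h1 : ∑ v, w v = 1) (T : Cert) {τ QL QH : ℝ}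
    (hT : T.Good τ QL QH) (ht : ∑ j : Fin 6, (xs w κ j - 1 / 6) ^ 2 ≤ τ ^ 2)
    (hm : (T.A : ℝ) ≤ T.B * mj E κ v w 0) (ho : ∀ j, ph E κ v w j ≤ ph E κ v w 0) :
    ∃ Qb, QL ≤ Qb ∧ Qb ≤ QH ∧ Ev 4 w (fun φ => (T.h (cm4 E κ v φ) : ℝ)) ≤
      T.VN + T.VQ * xs w κ 0 ^ 2 + T.CPi * (3 * mui E κ w 0) +
        T.CPo * (mu E w κ - 3 * mui E κ w 0) - 36 * T.SC * (deg E w v - PP w κ 0) +
        Qb * (7 * ins E κ v w 0 - 2 * xs w κ 0 ^ 2) := by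
  have e0 : Ev 4 w (fun φ => (T.h (cm4 E κ v φ) : ℝ)) =
      Ev 4 w (fun _ => (T.VN : ℝ)) +
      T.VQ * Ev 4 w (fun φ => ((i0 0 (rt (cm4 E κ v φ)) : ℕ) : ℝ)) +
      T.CPi * Ev 4 w (fun φ => ((mtI (t3 (cm4 E κ v φ)) : ℕ) : ℝ)) +
      T.CPo * Ev 4 w (fun φ => ((mtO (t3 (cm4 E κ v φ)) : ℕ) : ℝ)) -
      36 * T.SC * Ev 4 w (fun φ => ((eb (rt (cm4 E κ v φ)) : ℕ) : ℝ) -
        ((d0 0 (rt (cm4 E κ v φ)) : ℕ) : ℝ)) -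
      Ev 4 w (fun φ => (T.S0 (rt (cm4 E κ v φ)) (fB (cm4 E κ v φ)) : ℝ)) -
      Ev 4 w (fun φ => (T.S2 (rt (cm4 E κ v φ)) (fA2 (cm4 E κ v φ)) (fB2 (cm4 E κ v φ)) : ℝ)) -
      Ev 4 w (fun φ => (T.Mm (rt (cm4 E κ v φ)) : ℝ) *
        (T.B * ((m0 (fB (cm4 E κ v φ)) : ℕ) : ℝ) - T.A)) -
      Ev 4 w (fun φ => ∑ j : Fin 6, (T.Oo (rt (cm4 E κ v φ)) j : ℝ) *
        (((eb (fB (cm4 E κ v φ)) : ℕ) : ℝ) * (((d0 0 (fB (cm4 E κ v φ)) : ℕ) : ℝ) -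
          ((d0 j (fB (cm4 E κ v φ)) : ℕ) : ℝ)))) -
      Ev 4 w (fun φ => (T.Qz (rt (cm4 E κ v φ)) : ℝ) *
        (((i0 0 (fB (cm4 E κ v φ)) : ℕ) : ℝ) * (2 - 7 * ((eb (fB (cm4 E κ v φ)) : ℕ) : ℝ)))) +
      Ev 4 w (fun φ => (-(T.Ii (t3 (cm4 E κ v φ)) (c3 (cm4 E κ v φ))) : ℝ)) -
      Ev 4 w (fun φ => (T.NI (t3 (cm4 E κ v φ)) : ℝ)) := by
    rw [← Ev_mul, ← Ev_mul, ← Ev_mul, ← Ev_mul, ← Ev_add, ← Ev_add, ← Ev_add, ← Ev_sub, ← Ev_sub, ← Ev_sub,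
      ← Ev_sub, ← Ev_sub, ← Ev_sub, ← Ev_add, ← Ev_sub]
    refine Ev_congr 4 w fun φ => ?_
    unfold Cert.h
    push_cast
    ring
  have a0 : Ev 4 w (fun _ => (T.VN : ℝ)) = T.VN := Ev_const 4 w h1 _
  have aq : Ev 4 w (fun φ => ((i0 0 (rt (cm4 E κ v φ)) : ℕ) : ℝ)) = xs w κ 0 ^ 2 := by
    rw [ev2 E κ v h1 (fun r => ((i0 0 r : ℕ) : ℝ)), sum_i0]
  have a1 := ev_mtI E κ v hE hw h1
  have a2 := ev_mtO E κ v hE hw h1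
  have a3 : Ev 4 w (fun φ => ((eb (rt (cm4 E κ v φ)) : ℕ) : ℝ) -
        ((d0 0 (rt (cm4 E κ v φ)) : ℕ) : ℝ)) = deg E w v - PP w κ 0 := by
    rw [ev2 E κ v h1 (fun r => ((eb r : ℕ) : ℝ) - ((d0 0 r : ℕ) : ℝ)), sum_obj]
  have a4 := evS0 E κ v (w := w) (Q := fun a b => (T.S0 a b : ℝ)) hT.s0
  have a5 := evS2 E κ v hw (Q := fun r a b => (T.S2 r a b : ℝ)) hT.s2
  have a6 : 0 ≤ Ev 4 w (fun φ => (T.Mm (rt (cm4 E κ v φ)) : ℝ) *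
        (T.B * ((m0 (fB (cm4 E κ v φ)) : ℕ) : ℝ) - T.A)) := by
    rw [evP E κ v (fun r => (T.Mm r : ℝ)) (fun r => T.B * ((m0 r : ℕ) : ℝ) - T.A),
      sum_m0 E κ v h1]
    exact mul_nonneg (Ev_nonneg 2 w hw fun ρ => by exact_mod_cast hT.m _) (by linarith)
  have a7 : 0 ≤ Ev 4 w (fun φ => ∑ j : Fin 6, (T.Oo (rt (cm4 E κ v φ)) j : ℝ) *
        (((eb (fB (cm4 E κ v φ)) : ℕ) : ℝ) * (((d0 0 (fB (cm4 E κ v φ)) : ℕ) : ℝ) -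
          ((d0 j (fB (cm4 E κ v φ)) : ℕ) : ℝ)))) := by
    rw [Ev_sum]
    refine sum_nonneg fun j _ => ?_
    rw [evP E κ v (fun r => (T.Oo r j : ℝ)) (fun r => ((eb r : ℕ) : ℝ) *
      (((d0 0 r : ℕ) : ℝ) - ((d0 j r : ℕ) : ℝ))), sum_o0]
    exact mul_nonneg (Ev_nonneg 2 w hw fun ρ => by exact_mod_cast hT.o _ j)
      (by linarith [ho j])
  have a8 := evP E κ v (w := w) (fun r => (T.Qz r : ℝ)) (fun r => ((i0 0 r : ℕ) : ℝ) *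
    (2 - 7 * ((eb r : ℕ) : ℝ)))
  rw [sum_q0] at a8
  have a9 := evI E κ v h1 (fun r j => (-(T.Ii r j) : ℝ)) (fun r => by
    rw [sum_neg_distrib]
    have := hT.i0 r
    have h2 : ((∑ j : Fin 6, T.Ii r j : ℤ) : ℝ) = 0 := by rw [this]; simp
    push_cast at h2
    rw [h2, neg_zero])
  have a10 := ev3 E κ v h1 (fun r => (T.NI r : ℝ))
  have b6 : Ev 3 w (fun ρ => ∑ j : Fin 6, (-(T.Ii (G3 E κ v (ρ 0) (ρ 1) (ρ 2)) j) : ℝ) *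
      (xs w κ j - 1 / 6)) ≤ Ev 3 w (fun ρ => (T.NI (G3 E κ v (ρ 0) (ρ 1) (ρ 2)) : ℝ)) := by
    refine Ev_mono 3 w hw fun ρ => ?_
    have c2 := sum_mul_sq_le_sq_mul_sq univ
      (fun j : Fin 6 => (-(T.Ii (G3 E κ v (ρ 0) (ρ 1) (ρ 2)) j) : ℝ))
      (fun j => xs w κ j - 1 / 6)
    have c3 := hT.i (G3 E κ v (ρ 0) (ρ 1) (ρ 2))
    have c4 : ∑ j : Fin 6, (-(T.Ii (G3 E κ v (ρ 0) (ρ 1) (ρ 2)) j) : ℝ) ^ 2 =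
        ∑ j : Fin 6, ((T.Ii (G3 E κ v (ρ 0) (ρ 1) (ρ 2)) j) : ℝ) ^ 2 :=
      sum_congr rfl fun j _ => by ring
    rw [c4] at c2
    have c5 : 0 ≤ ((T.NI (G3 E κ v (ρ 0) (ρ 1) (ρ 2)) : ℤ) : ℝ) := by
      exact_mod_cast hT.ni _
    have c6 : (∑ j : Fin 6, (-(T.Ii (G3 E κ v (ρ 0) (ρ 1) (ρ 2)) j) : ℝ) *
        (xs w κ j - 1 / 6)) ^ 2 ≤
        ((T.NI (G3 E κ v (ρ 0) (ρ 1) (ρ 2)) : ℤ) : ℝ) ^ 2 :=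
      c2.trans ((mul_le_mul_of_nonneg_left ht (sum_nonneg fun j _ => sq_nonneg _)).trans c3)
    exact (abs_le_of_sq_le_sq' c6 c5).2
  refine ⟨Ev 2 w (fun ρ => (T.Qz (G2 E κ v (ρ 0) (ρ 1)) : ℝ)), ?_, ?_, ?_⟩
  · rw [← Ev_const 2 w h1 QL]
    exact Ev_mono 2 w hw fun ρ => hT.ql _
  · rw [← Ev_const 2 w h1 QH]
    exact Ev_mono 2 w hw fun ρ => hT.qh _
  · rw [e0, a0, aq, a3, a8, a9, a10]
    have d1 : (T.CPi : ℝ) * Ev 4 w (fun φ => ((mtI (t3 (cm4 E κ v φ)) : ℕ) : ℝ)) ≤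
        T.CPi * (3 * mui E κ w 0) := mul_le_mul_of_nonneg_left a1 (by exact_mod_cast hT.ci)
    have d2 : (T.CPo : ℝ) * Ev 4 w (fun φ => ((mtO (t3 (cm4 E κ v φ)) : ℕ) : ℝ)) ≤
        T.CPo * (mu E w κ - 3 * mui E κ w 0) :=
      mul_le_mul_of_nonneg_left a2 (by exact_mod_cast hT.co)
    set Qb := Ev 2 w (fun ρ => (T.Qz (G2 E κ v (ρ 0) (ρ 1)) : ℝ)) with hQ
    have d3 : Qb * (7 * ins E κ v w 0 - 2 * xs w κ 0 ^ 2) =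
        -(Qb * (2 * xs w κ 0 ^ 2 - 7 * ins E κ v w 0)) := by ring
    rw [d3]
    linarith

end

end LR
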