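import Pool.Agent.Helper85.LR.L4
import Pool.Agent.Helper85.KL.R6

set_option autoImplicit false

/-!
Link lemma: transport to an arbitrary class, and averaging over the orderings.
-/

namespace LR

open Finset hiding dens
open KF KB

section
variable {V : Type} [Fintype V] (E : V → V → V → Bool) (κ : V → Fin 6) (v : V) {w : V → ℝ}
  {a : Fin 6 → Fin 6} (hi : Function.Injective a)
  (ha : ∀ i j k, D6 (a i) (a j) (a k) = D6 i j k) {i : Fin 6} (h0 : a i = 0)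

include ha h0 in
theorem mj_ta : mj E (fun y => a (κ y)) v w 0 = mj E κ v w i := by
  unfold mj
  refine sum_congr rfl fun y _ => sum_congr rfl fun z _ => ?_
  rw [← h0, ha]

include ha in
theorem ph_ta (j : Fin 6) : ph E (fun y => a (κ y)) v w (a j) = ph E κ v w j := by
  unfold ph
  refine sum_congr rfl fun y _ => sum_congr rfl fun z _ => ?_
  rw [ha]

include hi h0 in
omit [Fintype V] in
theorem dec_ta (y : V) : decide (a (κ y) = 0) = decide (κ y = i) := by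
  rw [← h0]
  simp [hi.eq_iff]

include hi h0 in
theorem ins_ta : ins E (fun y => a (κ y)) v w 0 = ins E κ v w i := by
  unfold ins
  refine sum_congr rfl fun y _ => sum_congr rfl fun z _ => ?_
  rw [dec_ta κ hi h0 y, dec_ta κ hi h0 z]

include hi in
theorem xs_ta (j : Fin 6) : xs w (fun y => a (κ y)) (a j) = xs w κ j := by
  unfold xs ic
  refine sum_congr rfl fun y _ => ?_
  simp [hi.eq_iff]

include hi ha h0 in
theorem mui_ta : mui E (fun y => a (κ y)) w 0 = mui E κ w i := by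
  unfold mui
  refine sum_congr rfl fun y _ => ?_
  have h := KR.mm_aut E κ (KR.pm_mem hi ha) (w := w) y
  have h2 : mm E w (fun y => a (κ y)) y = mm E w κ y := h
  rw [h2]
  unfold ic
  rw [dec_ta κ hi h0]

include hi ha in
theorem mu_ta : mu E w (fun y => a (κ y)) = mu E w κ := by
  have h := KR.mu_aut E κ (KR.pm_mem hi ha) (w := w)
  have e : (fun y => (KR.pm hi) (κ y)) = fun y => a (κ y) := rfl
  rw [e] at h
  exact h

include hi in
theorem sq_ta : ∑ j : Fin 6, (xs w (fun y => a (κ y)) j - 1 / 6) ^ 2 =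
    ∑ j : Fin 6, (xs w κ j - 1 / 6) ^ 2 := by
  have h := KR.sq_aut κ (a := KR.pm hi) (w := w)
  have e : (fun y => (KR.pm hi) (κ y)) = fun y => a (κ y) := rfl
  rw [e] at h
  exact h

include hi ha h0 in
theorem PP_ta : PP w (fun y => a (κ y)) 0 = PP w κ i := by
  unfold PP
  rw [← Equiv.sum_comp (KR.pm hi)]
  refine sum_congr rfl fun j _ => ?_
  rw [← Equiv.sum_comp (KR.pm hi)]
  refine sum_congr rfl fun k _ => ?_
  change xs w (fun y => a (κ y)) (a j) * xs w (fun y => a (κ y)) (a k) *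
    b2r (D6 0 (a j) (a k)) = _
  rw [← h0, ha, xs_ta κ hi, xs_ta κ hi]

/-- The bound without the term with the multiplier of the inner degree. -/
noncomputable def R0 (E : V → V → V → Bool) (κ : V → Fin 6) (v : V) (w : V → ℝ) (T : Cert)
    (i : Fin 6) : ℝ :=
  T.VN + T.VQ * xs w κ i ^ 2 + T.CPi * (3 * mui E κ w i) +
    T.CPo * (mu E w κ - 3 * mui E κ w i) - 36 * T.SC * (deg E w v - PP w κ i)

include hi ha h0 in
/-- The inequality for a best class. -/
theorem one_aut (hE : K4m E) (hw : ∀ v, 0 ≤ w v) (h1 : ∑ v, w v = 1) (T : Cert) {τ QL QH : ℝ}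
    (hT : T.Good τ QL QH) (ht : ∑ j : Fin 6, (xs w κ j - 1 / 6) ^ 2 ≤ τ ^ 2)
    (hm : (T.A : ℝ) ≤ T.B * mj E κ v w i) (ho : ∀ j, ph E κ v w j ≤ ph E κ v w i) :
    ∃ Qb, QL ≤ Qb ∧ Qb ≤ QH ∧
      Ev 4 w (fun φ => (T.h (cm4 E (fun y => a (κ y)) v φ) : ℝ)) ≤
      R0 E κ v w T i + Qb * (7 * ins E κ v w i - 2 * xs w κ i ^ 2) := by
  have g1 : ∑ j : Fin 6, (xs w (fun y => a (κ y)) j - 1 / 6) ^ 2 ≤ τ ^ 2 := by
    rw [sq_ta κ hi]; exact ht
  have g2 : (T.A : ℝ) ≤ T.B * mj E (fun y => a (κ y)) v w 0 := by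
    rw [mj_ta E κ v ha h0]; exact hm
  have g3 : ∀ j, ph E (fun y => a (κ y)) v w j ≤ ph E (fun y => a (κ y)) v w 0 := by
    intro j
    obtain ⟨j', hj⟩ := (KR.pm hi).surjective j
    have hj' : a j' = j := hj
    rw [← hj', ← h0, ph_ta E κ v ha, ph_ta E κ v ha]
    exact ho j'
  have h := one E (fun y => a (κ y)) v hE hw h1 T hT g1 g2 g3
  rw [PP_ta κ hi ha h0, mui_ta E κ hi ha h0, mu_ta E κ hi ha, ins_ta E κ v hi h0] at h
  have hx := xs_ta κ hi i (w := w)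
  rw [h0] at hx
  rw [hx] at h
  exact h

end

theorem cast_ls {α : Type} (f : α → ℤ) (l : List α) :
    (((l.map f).sum : ℤ) : ℝ) = (l.map fun b => (f b : ℝ)).sum := by
  induction l with
  | nil => simp
  | cons a l ih => simp [ih]

/-- An automorphism mapping `i` to 0. -/
theorem ta_ex : ∀ i : Fin 6, ∃ a : Fin 6 → Fin 6, Function.Injective a ∧
    (∀ i j k, D6 (a i) (a j) (a k) = D6 i j k) ∧ a i = 0 := by
  intro i
  fin_cases i
  · exact ⟨![0, 1, 2, 3, 4, 5], by decide, by decide, rfl⟩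
  · exact ⟨![1, 0, 2, 3, 5, 4], by decide, by decide, rfl⟩
  · exact ⟨![1, 2, 0, 5, 3, 4], by decide, by decide, rfl⟩
  · exact ⟨![1, 2, 5, 0, 4, 3], by decide, by decide, rfl⟩
  · exact ⟨![1, 4, 3, 5, 0, 2], by decide, by decide, rfl⟩
  · exact ⟨![1, 4, 5, 3, 2, 0], by decide, by decide, rfl⟩

section
variable {V : Type} [Fintype V] (E : V → V → V → Bool) (κ : V → Fin 6) (v : V) {w : V → ℝ}

theorem Ev_ls {α : Type} (n : ℕ) (G : α → (Fin n → V) → ℝ) (l : List α) :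
    Ev n w (fun φ => (l.map fun b => G b φ).sum) = (l.map fun b => Ev n w (G b)).sum := by
  induction l with
  | nil => unfold Ev; simp
  | cons a l ih =>
    simp only [List.map_cons, List.sum_cons]
    rw [Ev_add, ih]

theorem Ev_perms (h1 : ∑ v, w v = 1) (F : (Fin 4 → V) → ℝ) :
    Ev 4 w (fun φ => ∑ p : Equiv.Perm (Fin 4), F (fun s => φ (p s))) = 24 * Ev 4 w F := by
  rw [Ev_sum]
  have e : ∀ p : Equiv.Perm (Fin 4), Ev 4 w (fun φ => F (fun s => φ (p s))) = Ev 4 w F :=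
    fun p => Ev_perm p w h1 F
  rw [sum_congr rfl fun p _ => e p, sum_const, nsmul_eq_mul, card_univ, Fintype.card_perm,
    Fintype.card_fin]
  simp [Nat.factorial]

/-- The inequality for a best class. -/
theorem link (hE : K4m E) (hw : ∀ v, 0 ≤ w v) (h1 : ∑ v, w v = 1) (T : Cert) {τ QL QH : ℝ}
    (hT : T.Good τ QL QH) (ht : ∑ j : Fin 6, (xs w κ j - 1 / 6) ^ 2 ≤ τ ^ 2) (i : Fin 6)
    (hm : (T.A : ℝ) ≤ T.B * mj E κ v w i) (ho : ∀ j, ph E κ v w j ≤ ph E κ v w i)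
    {AL : List (Fin 6 → Fin 6)} (hA : AL ≠ []) (hA1 : ∀ b ∈ AL, Function.Injective b)
    (hA2 : ∀ b ∈ AL, ∀ i j k, D6 (b i) (b j) (b k) = D6 i j k) (hA3 : ∀ b ∈ AL, b 0 = 0)
    (hc : ∀ (κ' : V → Fin 6) (φ : Fin 4 → V), 0 ≤ (AL.map fun b =>
      ∑ p : Equiv.Perm (Fin 4), T.h (cm4 E (fun x => b (κ' x)) v (fun s => φ (p s)))).sum) :
    ∃ Qb, QL ≤ Qb ∧ Qb ≤ QH ∧ 36 * T.SC * (deg E w v - PP w κ i) ≤
      T.VN + T.VQ * xs w κ i ^ 2 + T.CPi * (3 * mui E κ w i) +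
        T.CPo * (mu E w κ - 3 * mui E κ w i) +
        Qb * (7 * ins E κ v w i - 2 * xs w κ i ^ 2) := by
  obtain ⟨a, hi, ha, h0⟩ := ta_ex i
  have e1 : 0 ≤ (AL.map fun b =>
      Ev 4 w (fun φ => (T.h (cm4 E (fun x => b (a (κ x))) v φ) : ℝ))).sum := by
    have g1 : 0 ≤ Ev 4 w (fun φ => (AL.map fun b => ∑ p : Equiv.Perm (Fin 4),
        (T.h (cm4 E (fun x => b (a (κ x))) v (fun s => φ (p s))) : ℝ)).sum) := by
      refine Ev_nonneg 4 w hw fun φ => ?_
      have g2 := hc (fun x => a (κ x)) φ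
      have g3 : (0 : ℝ) ≤ (((AL.map fun b => ∑ p : Equiv.Perm (Fin 4),
        T.h (cm4 E (fun x => b (a (κ x))) v (fun s => φ (p s)))).sum : ℤ) : ℝ) := by
        exact_mod_cast g2
      rw [cast_ls] at g3
      simpa only [Int.cast_sum] using g3
    rw [Ev_ls 4 (fun (b : Fin 6 → Fin 6) (φ : Fin 4 → V) => ∑ p : Equiv.Perm (Fin 4),
        (T.h (cm4 E (fun x => b (a (κ x))) v (fun s => φ (p s))) : ℝ)) AL] at g1
    have g4 : ∀ b : Fin 6 → Fin 6, Ev 4 w (fun φ => ∑ p : Equiv.Perm (Fin 4),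
        (T.h (cm4 E (fun x => b (a (κ x))) v (fun s => φ (p s))) : ℝ)) =
        24 * Ev 4 w (fun φ => (T.h (cm4 E (fun x => b (a (κ x))) v φ) : ℝ)) := fun b =>
      Ev_perms h1 (fun φ => (T.h (cm4 E (fun x => b (a (κ x))) v φ) : ℝ))
    simp only [g4] at g1
    rw [List.sum_map_mul_left] at g1
    linarith
  have key : ∀ l : List (Fin 6 → Fin 6), (∀ b ∈ l, b ∈ AL) → ∃ Qs,
      (l.length : ℝ) * QL ≤ Qs ∧ Qs ≤ (l.length : ℝ) * QH ∧
      (l.map fun b => Ev 4 w (fun φ => (T.h (cm4 E (fun x => b (a (κ x))) v φ) : ℝ))).sum ≤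
        (l.length : ℝ) * R0 E κ v w T i + Qs * (7 * ins E κ v w i - 2 * xs w κ i ^ 2) := by
    intro l
    induction l with
    | nil => intro _; exact ⟨0, by simp, by simp, by simp⟩
    | cons b l ih =>
      intro hl
      obtain ⟨Qs, g1, g2, g3⟩ := ih (fun c hc => hl c (by simp [hc]))
      have hb := hl b (by simp)
      obtain ⟨Qb, k1, k2, k3⟩ := one_aut E κ v (a := fun x => b (a x))
        ((hA1 b hb).comp hi) (fun i j k => by rw [hA2 b hb, ha]) (i := i)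
        (by change b (a i) = 0; rw [h0, hA3 b hb]) hE hw h1 T hT ht hm ho
      refine ⟨Qb + Qs, ?_, ?_, ?_⟩
      · rw [List.length_cons]; push_cast; linarith
      · rw [List.length_cons]; push_cast; linarith
      · rw [List.map_cons, List.sum_cons, List.length_cons]; push_cast; linarith
  obtain ⟨Qs, g1, g2, g3⟩ := key AL fun b h => h
  have hl : 0 < (AL.length : ℝ) := by exact_mod_cast List.length_pos_iff.2 hA
  refine ⟨Qs / AL.length, ?_, ?_, ?_⟩
  · rw [le_div_iff₀ hl]; linarith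
  · rw [div_le_iff₀ hl]; linarith
  · have g4 := e1.trans g3
    have g5 : (AL.length : ℝ) * R0 E κ v w T i + Qs * (7 * ins E κ v w i - 2 * xs w κ i ^ 2) =
        (AL.length : ℝ) * (R0 E κ v w T i +
          Qs / AL.length * (7 * ins E κ v w i - 2 * xs w κ i ^ 2)) := by
      field_simp
    rw [g5] at g4
    have g6 := (mul_nonneg_iff_of_pos_left hl).1 g4
    unfold R0 at g6
    linarith

/-- The inequality for a vertex with many missing pairs in all classes. -/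
theorem link_all (hE : K4m E) (hw : ∀ v, 0 ≤ w v) (h1 : ∑ v, w v = 1) (T : Cert) {τ QL QH : ℝ}
    (hT : T.Good τ QL QH) (ht : ∑ j : Fin 6, (xs w κ j - 1 / 6) ^ 2 ≤ τ ^ 2)
    (hm : ∀ i, (T.A : ℝ) ≤ T.B * mj E κ v w i)
    {AL : List (Fin 6 → Fin 6)} (hA : AL ≠ []) (hA1 : ∀ b ∈ AL, Function.Injective b)
    (hA2 : ∀ b ∈ AL, ∀ i j k, D6 (b i) (b j) (b k) = D6 i j k) (hA3 : ∀ b ∈ AL, b 0 = 0)
    (hc : ∀ (κ' : V → Fin 6) (φ : Fin 4 → V), 0 ≤ (AL.map fun b =>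
      ∑ p : Equiv.Perm (Fin 4), T.h (cm4 E (fun x => b (κ' x)) v (fun s => φ (p s)))).sum) :
    ∃ i Qb, QL ≤ Qb ∧ Qb ≤ QH ∧ (∀ j, ph E κ v w j ≤ ph E κ v w i) ∧
      36 * T.SC * (deg E w v - PP w κ i) ≤
      T.VN + T.VQ * xs w κ i ^ 2 + T.CPi * (3 * mui E κ w i) +
        T.CPo * (mu E w κ - 3 * mui E κ w i) +
        Qb * (7 * ins E κ v w i - 2 * xs w κ i ^ 2) := by
  obtain ⟨i, hi⟩ := Finite.exists_max (fun j : Fin 6 => ph E κ v w j)
  obtain ⟨Qb, g1, g2, g3⟩ := link E κ v hE hw h1 T hT ht i (hm i) hi hA hA1 hA2 hA3 hc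
  exact ⟨i, Qb, g1, g2, hi, g3⟩

end

end LR
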